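import Pool.Agent.Lib.H8.Shc1
import Pool.Agent.Lib.H8.Pool2

/-!
A sublinear order function whose shift-complex classes are all deep.
-/

namespace Pool.Agent.Results.MP_c57dc8_lc.Yes

open Pool.Agent.Lib.H8 Arith CList Wei Qm Rnd Kc Om Gen Low Shc Filter Topology Finset Classical

/-- The first `n` bits. -/
def res (X : ℕ → Bool) (n : ℕ) : List Bool := (List.range n).map X

/-- A universal prefix-free machine. -/
def UnivPF (V : List Bool →. List Bool) : Prop :=
  Partrec V ∧ (∀ p q : List Bool, (V p).Dom → (V q).Dom → p <+: q → p = q) ∧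
    ∀ M : List Bool →. List Bool, Partrec M →
      (∀ p q : List Bool, (M p).Dom → (M q).Dom → p <+: q → p = q) →
      ∃ c : ℕ, ∀ p z : List Bool, z ∈ M p → ∃ q : List Bool, q.length ≤ p.length + c ∧ z ∈ V q

/-- The length of a shortest description. -/
noncomputable def K (V : List Bool →. List Bool) (s : List Bool) : ℕ :=
  sInf {m : ℕ | ∃ p : List Bool, p.length = m ∧ s ∈ V p}

/-- Left-c.e. continuous semimeasures. -/
def SemiM (M : List Bool → ℝ) : Prop :=
  (∀ s, 0 ≤ M s) ∧ M [] ≤ 1 ∧ (∀ s, M (s ++ [false]) + M (s ++ [true]) ≤ M s) ∧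
    REPred fun q : List Bool × ℕ × ℕ => (q.2.1 : ℝ) / 2 ^ q.2.2 < M q.1

/-- Order functions with natural values. -/
def OrdF (h : ℕ → ℕ) : Prop := Computable h ∧ Monotone h ∧ Tendsto h atTop atTop

/-- Shift-complex sequences. -/
def SC (V : List Bool →. List Bool) (f : ℕ → ℕ) (c : ℕ) : Set (ℕ → Bool) :=
  {X | ∀ i n, f n ≤ K V (res (fun j => X (i + j)) n) + c}

/-- Deep classes. -/
def Deep (M : List Bool → ℝ) (P : Set (ℕ → Bool)) : Prop :=
  ∃ h, OrdF h ∧ ∀ n, ∑ᶠ s ∈ (fun X => res X (h n)) '' P, M s ≤ 2⁻¹ ^ n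

theorem result : ∃ f : ℕ → ℕ, OrdF f ∧ Tendsto (fun n => (f n : ℝ) / n) atTop (𝓝 0) ∧
    ∀ V, UnivPF V → ∀ M, SemiM M → ∀ c, Deep M (SC V f c) := by
  have f := @Computable.fst
  have s := @Computable.snd
  have sc := Computable.succ
  obtain ⟨U, uc, u0⟩ : ∃ U : ℕ → ℕ, Computable U ∧ ∀ k, U k = 2 ^ (k + 3) * 2 ^ (k + 3) :=
    ⟨_, ml (pow_c.comp (ad Computable.id (Computable.const 3)))
      (pow_c.comp (ad Computable.id (Computable.const 3))), fun _ => rfl⟩
  have u1 (k) : k + 1 ≤ U k := by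
    have := (k + 3).lt_two_pow_self
    rw [u0]; nlinarith
  obtain ⟨E, ec, e0⟩ : ∃ E : ℕ → ℕ, Computable E ∧ ∀ k, E k = (nx (k + 1))^[k] (U k) := by
    have : Computable fun q : ℕ × ℕ × ℕ => nx (q.1 + 1) q.2.2 :=
      ml (pow_c.comp (ml (sc.comp f) (s.comp s))) (s.comp s)
    refine ⟨_, Computable.nat_rec (h := fun k (q : ℕ × ℕ) => nx (k + 1) q.2) Computable.id uc
      this.to₂, fun k => ?_⟩
    generalize k + 1 = D, U k = u
    induction k with
    | zero => rfl
    | succ k i => rw [Function.iterate_succ_apply', ← i]; rfl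
  have e1 (k) : U k ≤ E k := e0 k ▸ le_it _ _ _
  obtain ⟨H, hc, h0⟩ : ∃ H : ℕ → ℕ, Computable H ∧ ∀ k, H k = ∑ i ∈ range (k + 1), (i + 1) * E i :=
    ⟨_, csumr sc (ml (sc.comp s) (ec.comp s)).to₂, fun _ => rfl⟩
  have h1 (k) : (k + 1) * E k ≤ H k := by rw [h0, sum_range_succ]; omega
  have t : Computable fun q : ℕ × ℕ => 9 * min (q.1 / (q.2 + 1)) (E q.2) :=
    ml (Computable.const 9) (Primrec.nat_min.to_comp.comp
      (Primrec.nat_div.to_comp.comp f (sc.comp s)) (ec.comp s))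
  have t : Computable fun q : (ℕ × ℕ) × ℕ => 9 * min (q.1.1 / (q.2 + 1)) (E q.2) :=
    t.comp ((f.comp f).pair s)
  obtain ⟨F, fc, f0⟩ := csel (P := fun n y => (∀ k < n + 1, 9 * min (n / (k + 1)) (E k) ≤ y) ∧
      ∃ k < n + 1, 9 * min (n / (k + 1)) (E k) = y)
    (cand (cball (sc.comp f) (cle t (s.comp f))) (cbex (sc.comp f) (ceq t (s.comp f)))) fun n => by
      obtain ⟨k, a, b⟩ := exists_max_image (range (n + 1))
        (fun k => 9 * min (n / (k + 1)) (E k)) (by simp)
      exact ⟨_, fun k e => b k (mem_range.2 e), k, mem_range.1 a, rfl⟩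
  have fm : Monotone F := fun a b e => by
    obtain ⟨k, k1, k2⟩ := (f0 a).2
    exact k2 ▸ le_trans (by gcongr) ((f0 b).1 k (by omega))
  have f1 (k v) (a : U k ≤ v) (b : v ≤ E k) : 9 * v ≤ F ((k + 1) * v) := by
    have := u1 k
    simpa [b] using (f0 ((k + 1) * v)).1 k (by nlinarith)
  refine ⟨F, ⟨fc, fm, fm.tendsto_atTop_atTop fun b => ⟨_, le_trans (by have := u1 b; omega)
    (f1 b _ le_rfl (e1 b))⟩⟩, ?_, fun V hV M hM c => ?_⟩
  · refine tendsto_order.2 ⟨fun a e => .of_forall fun n => e.trans_le (by positivity),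
      fun a e => ?_⟩
    obtain ⟨m, hm⟩ := exists_nat_gt (9 / a)
    filter_upwards [eventually_gt_atTop (m * H m)] with n l
    have n0 : (0 : ℝ) < n := by exact_mod_cast l.pos
    have : m * F n ≤ 9 * n := by
      obtain ⟨k, -, k2⟩ := (f0 n).2
      rw [← k2, mul_left_comm]
      gcongr
      rcases lt_or_ge k m with j | j
      · have : (k + 1) * E k ≤ H m := h0 m ▸ single_le_sum (f := fun i => (i + 1) * E i)
          (fun _ _ => by positivity) (mem_range.2 (by omega))
        exact (Nat.mul_le_mul_left m ((min_le_right _ _).trans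
          ((Nat.le_mul_of_pos_left _ k.succ_pos).trans this))).trans l.le
      · nlinarith [min_le_left (n / (k + 1)) (E k), Nat.div_mul_le_self n (k + 1)]
    have : (m : ℝ) * F n ≤ 9 * n := by exact_mod_cast this
    rw [div_lt_iff₀ e] at hm
    rw [div_lt_iff₀ n0]
    have m0 : (0 : ℝ) < m := by by_contra; nlinarith
    nlinarith
  obtain ⟨W, w0, w1⟩ := ex_opt
  obtain ⟨c1, w2⟩ := dbl hV.2.2 w0 w1
  have k : Computable fun z : (ℕ × List (List Bool)) × List ℕ => z.1.1.unpair.1 :=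
    Arith.u1.comp (f.comp f)
  have S : Computable fun z : (ℕ × List (List Bool)) × List ℕ => z.1.2 := s.comp f
  have N := pow_c.comp (hc.comp k)
  have a : Computable fun z : ((ℕ × List (List Bool)) × List ℕ) × ℕ => z.1.2.getD z.2 0 :=
    (Primrec.list_getD 0).to_comp.comp (s.comp f) s
  have x : Computable fun z : ((ℕ × List (List Bool)) × List ℕ) × ℕ =>
    pr z.2.testBit (H z.1.1.1.unpair.1) := bits_c s (hc.comp (k.comp f))
  have r1 : Sig 1 _ fun z : ((ℕ × List (List Bool)) × List ℕ) × ℕ => z.1.2.getD z.2 0 = 0 ∨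
      (z.1.2.getD z.2 0 : ℝ) / 2 ^ (H z.1.1.1.unpair.1 + z.1.1.1.unpair.1 + 2) <
        M (pr z.2.testBit (H z.1.1.1.unpair.1)) :=
    (CeAlg.cs (ceq a (Computable.const 0))).or ((re_sig hM.2.2.2).comp (x.pair (a.pair
      (ad (ad (hc.comp (k.comp f)) (k.comp f)) (Computable.const 2)))))
  have r2 : ComputablePred fun z : (((ℕ × List (List Bool)) × List ℕ) × List Bool) × ℕ =>
      U z.1.1.1.1.unpair.1 ≤ z.2 ∧ z.1.2.length = (z.1.1.1.1.unpair.1 + 1) * z.2 :=
    cand (cle (uc.comp (k.comp (f.comp f))) s) (ceq (Computable.list_length.comp (s.comp f))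
      (ml (sc.comp (k.comp (f.comp f))) s))
  have r3 : ComputablePred fun z : (((ℕ × List (List Bool)) × List ℕ) × ℕ) × List Bool =>
      z.2.length = (z.1.1.1.1.unpair.1 + 1) * z.1.2 :=
    ceq (Computable.list_length.comp s) (ml (sc.comp (k.comp (f.comp f))) (s.comp f))
  have r3 : ComputablePred fun z : ((ℕ × List (List Bool)) × List ℕ) × ℕ =>
      (z.1.1.2.filter fun y => y.length = (z.1.1.1.unpair.1 + 1) * z.2).length ≤
        2 ^ (2 * z.2) * (z.1.1.1.unpair.1 + 1) :=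
    cle (Computable.list_length.comp (cfilter (S.comp f) r3))
      (ml (pow_c.comp (dbl_c.comp s)) (sc.comp (k.comp f)))
  have r4 : ComputablePred fun z : (((ℕ × List (List Bool)) × List ℕ) × ℕ) × List Bool =>
      ¬ z.2 <:+: pr z.1.2.testBit (H z.1.1.1.1.unpair.1) := (cinf s (x.comp f)).not
  have r4 : Computable fun z : ((ℕ × List (List Bool)) × List ℕ) × ℕ =>
      if ∀ y ∈ z.1.1.2, ¬ y <:+: pr z.2.testBit (H z.1.1.1.unpair.1) then z.1.2.getD z.2 0 else 0 :=
    cite (call (S.comp f) r4) a (Computable.const 0)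
  have E1 := sc.comp (ec.comp k)
  have r2 := call (p := fun (z : (ℕ × List (List Bool)) × List ℕ) (y : List Bool) =>
    ∃ v < E z.1.1.unpair.1 + 1, U z.1.1.unpair.1 ≤ v ∧ y.length = (z.1.1.unpair.1 + 1) * v) S
      (cbex (E1.comp f) r2)
  have r3 := cball (p := fun (z : (ℕ × List (List Bool)) × List ℕ) v =>
    (z.1.2.filter fun y => y.length = (z.1.1.unpair.1 + 1) * v).length ≤
      2 ^ (2 * v) * (z.1.1.unpair.1 + 1)) E1 r3
  obtain ⟨g, g0, g1, g2⟩ := unif (sig_ex ((r1.ball N).and (CeAlg.cs (cand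
    (cle (ml (Arith.u2.comp (f.comp f)) N) (csumr N a.to₂)) (cand r2
      (cand r3 (cle (csumr N r4.to₂) (dbl_c.comp N))))))))
  have r5 : Sig 1 _ fun z : ((ℕ × ℕ) × List Bool) × List (List Bool) => z.2 ∈ g z.1.1.1 ∧
      z.1.2 ∈ z.2 ∧ 3 * z.1.2.length = (z.1.1.1.unpair.1 + 1) * z.1.1.2 :=
    ((graph g0).comp ((f.comp (f.comp f)).pair s)).and (CeAlg.cs (cand (cmem s (s.comp f))
      (ceq (ml (Computable.const 3) (Computable.list_length.comp (s.comp f)))
        (ml (sc.comp (Arith.u1.comp (f.comp (f.comp f)))) (s.comp (f.comp f))))))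
  obtain ⟨c2, w3⟩ := w1.bound (sig_ex r5)
  dsimp only at g1 g2 w3
  have hm : Monotone H := fun a b e => by
    rw [h0, h0]; exact sum_le_sum_of_subset (range_subset_range.2 (by omega))
  refine ⟨fun n => H (n + (2 * c2 + c1 + c)), ⟨hc.comp (ad Computable.id (Computable.const _)),
    fun a b e => hm (by omega), tendsto_atTop_mono (fun n => ?_) tendsto_id⟩, fun n => ?_⟩
  · have := h1 (n + (2 * c2 + c1 + c))
    have := (u1 _).trans (e1 (n + (2 * c2 + c1 + c)))
    simp only [id]; nlinarith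
  refine le_trans ?_ (pow_le_pow_of_le_one (by norm_num) (by norm_num)
    (Nat.le_add_right n (2 * c2 + c1 + c)))
  have kc : 2 * c2 + c1 + c ≤ n + (2 * c2 + c1 + c) := by omega
  dsimp only
  generalize n + (2 * c2 + c1 + c) = k at *
  obtain ⟨T, eT⟩ : ∃ T, T = ∑ u ∈ range (2 ^ H k), M (pr u.testBit (H k)) := ⟨_, rfl⟩
  have T0 : 0 ≤ T := eT ▸ sum_nonneg fun _ _ => hM.1 _
  have T1 : T ≤ 1 := eT ▸ (level hM.2.2.1 _).trans hM.2.1
  have ap (A : ℕ → ℕ) (e : ∀ u < 2 ^ H k, A u = 0 ∨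
      (A u : ℝ) / 2 ^ (H k + k + 2) < M (pr u.testBit (H k))) (u) (l : u ∈ range (2 ^ H k)) :
      (A u : ℝ) / 2 ^ (H k + k + 2) ≤ M (pr u.testBit (H k)) :=
    (e u (mem_range.1 l)).elim (fun e => by simpa [e] using hM.1 _) le_of_lt
  obtain ⟨j, j1, j2⟩ : ∃ j : ℕ, (j = 0 ∨ (j : ℝ) + 1 ≤ T * 2 ^ (k + 2)) ∧
      T * 2 ^ (k + 2) < j + 2 := by
    have p := Nat.lt_floor_add_one (T * 2 ^ (k + 2))
    have q := Nat.floor_le (a := T * 2 ^ (k + 2)) (by positivity)
    rcases e : ⌊T * 2 ^ (k + 2)⌋₊ with _ | j <;> simp only [e, Nat.cast_succ] at p q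
    exacts [⟨0, .inl rfl, by linarith⟩, ⟨j, .inr q, by linarith⟩]
  obtain ⟨L, l0⟩ : ∃ L, L ∈ g (Nat.pair k j) := by
    let A u := ⌈M (pr (Nat.testBit u) (H k)) * 2 ^ (H k + k + 2)⌉₊ - 1
    have A1 (u) : (A u = 0 ∨ (A u : ℝ) / 2 ^ (H k + k + 2) < M (pr u.testBit (H k))) ∧
        M (pr u.testBit (H k)) * 2 ^ (H k + k + 2) ≤ A u + 1 := by
      have p := Nat.le_ceil (M (pr (Nat.testBit u) (H k)) * 2 ^ (H k + k + 2))
      have q := Nat.ceil_lt_add_one (a := M (pr (Nat.testBit u) (H k)) * 2 ^ (H k + k + 2))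
        (by have := hM.1 (pr (Nat.testBit u) (H k)); positivity)
      rw [div_lt_iff₀ (by positivity)]
      rcases e : ⌈M (pr (Nat.testBit u) (H k)) * 2 ^ (H k + k + 2)⌉₊ with _ | j <;>
        simp only [A, e, Nat.cast_succ, Nat.succ_sub_one, Nat.zero_sub] at p q ⊢
      exacts [⟨.inl trivial, by linarith⟩, ⟨.inr (by linarith), p⟩]
    obtain ⟨S, s1, s2, s3⟩ := lev (h := H k) (k + 1) k.succ_pos (a := fun u => (A u : ℝ))
      (fun _ => by positivity) Nat.testBit k ((u1 k).trans_lt' k.succ_pos) (I := range (2 ^ H k))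
      (C := (range (2 ^ ((k + 1) * U k))).image fun u => pr u.testBit ((k + 1) * U k))
      (card_image_le.trans (by rw [card_range]; gcongr <;> omega))
      (fun y e => by obtain ⟨u, -, rfl⟩ := mem_image.1 e; simp)
      (fun x _ b _ => by
        obtain ⟨u, a, b⟩ := pr_sur (fun i => x.testBit (b * ((k + 1) * U k) + i)) ((k + 1) * U k)
        exact mem_image.2 ⟨u, mem_range.2 a, b.symm⟩) (e0 k ▸ h1 k)
    have gA (u) (e : u ∈ range (2 ^ H k)) : (pre A (2 ^ H k)).getD u 0 = A u :=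
      pre_get A (mem_range.1 e)
    refine g2 _ S.toList ⟨pre A (2 ^ H k), fun u e => ?_, ?_, fun y e => ?_, fun v e => ?_, ?_⟩ <;>
      simp only [Nat.unpair_pair]
    · rw [Nat.unpair_pair] at e
      rw [pre_get A e]; exact (A1 u).1
    · rw [sum_congr rfl gA]
      rcases j1 with rfl | j1
      · simp
      have := sum_le_sum fun u (_ : u ∈ range (2 ^ H k)) => (A1 u).2
      rw [← sum_mul, ← eT, sum_add_distrib, sum_const, card_range, add_assoc, pow_add] at this
      have : ((j * 2 ^ H k : ℕ) : ℝ) ≤ (∑ u ∈ range (2 ^ H k), A u : ℕ) := by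
        push_cast; simp at this; nlinarith [show (0 : ℝ) < 2 ^ H k by positivity]
      exact_mod_cast this
    · obtain ⟨v, a, b, d⟩ := s1 y (mem_toList.1 e)
      exact ⟨v, Nat.lt_succ_of_le (e0 k ▸ b), a, d⟩
    · rw [← List.toFinset_card_of_nodup (S.nodup_toList.filter _)]
      simpa [List.toFinset_filter] using s2 v
    · rw [sum_congr rfl fun u e => by rw [gA u e], ← sum_filter]
      have := sum_le_sum (ap A fun u _ => (A1 u).1)
      rw [← sum_div, ← eT, div_le_iff₀ (by positivity)] at this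
      have : ((∑ u ∈ range (2 ^ H k) with ∀ y ∈ S.toList, ¬ y <:+: pr u.testBit (H k), A u : ℕ) : ℝ)
          ≤ (2 * 2 ^ H k : ℕ) := by
        push_cast
        simp only [mem_toList]
        refine s3.trans ((mul_le_mul_of_nonneg_left (this.trans (mul_le_of_le_one_left
          (by positivity) T1)) (by positivity)).trans_eq ?_)
        rw [inv_pow]; field_simp; ring
      exact_mod_cast this
  obtain ⟨A, a1, a2, a3, a4, a5⟩ := g1 _ _ l0
  simp only [Nat.unpair_pair] at a1 a2 a3 a4 a5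
  rw [← sum_filter] at a5
  have sub : (fun X => res X (H k)) '' SC V F c ⊆ (((range (2 ^ H k)).filter fun u =>
      ∀ y ∈ L, ¬ y <:+: pr u.testBit (H k)).image fun u => pr u.testBit (H k) : Finset _) := by
    rintro _ ⟨X, hX, rfl⟩
    obtain ⟨u, a, b⟩ := pr_sur X (H k)
    refine mem_coe.2 (mem_image.2 ⟨u, mem_filter.2 ⟨mem_range.2 a, fun y e i => ?_⟩, b.symm⟩)
    obtain ⟨i, p⟩ := inf_pr (b ▸ i)
    obtain ⟨v, v1, v2, v3⟩ := a3 y e
    have q : F y.length ≤ cx V y + c := by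
      have := hX i y.length
      rwa [show res _ _ = y from p.symm] at this
    have := w3 (Nat.pair k j) (3 * v) y ⟨L, l0, e, by simp [v3]; ring⟩ fun G e => by
      refine le_trans (card_le_card fun y p => ?_) ((List.toFinset_card_le _).trans
        ((a4 v v1).trans ?_))
      · obtain ⟨L', p1, p2, p3⟩ := e y p
        obtain rfl := Part.mem_unique p1 l0
        simp only [Nat.unpair_pair] at p3
        simp only [List.mem_toFinset, List.mem_filter, decide_eq_true_eq]
        exact ⟨p2, by nlinarith⟩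
      · rw [show 3 * v = 2 * v + v by ring, pow_add]
        have := v.lt_two_pow_self
        have := u1 k
        gcongr; omega
    have := f1 k v v2 (by omega)
    have := w2 y
    have := u1 k
    have : Nat.pair k j < U k := by
      have := (k + 3).lt_two_pow_self
      refine u0 k ▸ Pl.pair_lt (by omega) ?_
      rcases j1 with rfl | j1
      · positivity
      have : (j : ℝ) < (2 ^ (k + 3) : ℕ) := by
        push_cast; rw [pow_succ]; nlinarith [show (0 : ℝ) < 2 ^ (k + 2) by positivity]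
      exact_mod_cast this
    simp only [← v3] at *
    omega
  rw [finsum_mem_eq_finite_toFinset_sum _ ((finite_toSet _).subset sub)]
  refine (sum_le_sum_of_subset_of_nonneg (fun y e => mem_coe.1 (sub
    ((Set.Finite.mem_toFinset _).1 e))) fun _ _ _ => hM.1 _).trans ?_
  rw [sum_image fun u a v b e => bits_inj (mem_range.1 (mem_filter.1 a).1)
    (mem_range.1 (mem_filter.1 b).1) e]
  have z := sum_le_sum_of_subset_of_nonneg (f := fun u => M (pr u.testBit (H k)) -
    (A.getD u 0 : ℝ) / 2 ^ (H k + k + 2)) (filter_subset (fun u : ℕ =>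
      ∀ y ∈ L, ¬ y <:+: pr u.testBit (H k)) (range (2 ^ H k)))
    fun u e _ => sub_nonneg.2 (ap _ a1 u e)
  rw [sum_sub_distrib, sum_sub_distrib, ← eT, ← sum_div, ← sum_div, ← Nat.cast_sum,
    ← Nat.cast_sum] at z
  have a2 := div_le_div_of_nonneg_right (c := 2 ^ (H k + k + 2)) ((Nat.cast_le (α := ℝ)).2 a2)
    (by positivity)
  have a5 := div_le_div_of_nonneg_right (c := 2 ^ (H k + k + 2)) ((Nat.cast_le (α := ℝ)).2 a5)
    (by positivity)
  have : T ≤ (j + 2) / 2 ^ (k + 2) := by rw [le_div_iff₀ (by positivity)]; exact j2.le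
  have : (2⁻¹ : ℝ) ^ k = (j + 2) / 2 ^ (k + 2) - ((j * 2 ^ H k : ℕ) : ℝ) / 2 ^ (H k + k + 2) +
      ((2 * 2 ^ H k : ℕ) : ℝ) / 2 ^ (H k + k + 2) := by
    push_cast; rw [inv_pow]; field_simp; ring
  linarith

end Pool.Agent.Results.MP_c57dc8_lc.Yes
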